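import Pool.Agent.Y570.CE.Main

/-!
# Counting order-preserving self-maps is #P-complete already for posets of height three

The starting file `CountEndComplete` shows that COUNT-END is `#P`-complete. Here this is shown for
restricted classes of posets. `countC C M` (`Pool/Agent/Y570/CE/Defs.lean`) is the number of
order-preserving self-maps of the poset given by the 0/1 matrix `M` if this poset is in the class
`C`, and `0` otherwise; `HeightLE h M` says that the poset has no chain with `h + 1` elements.

Counting order-preserving self-maps is `#P`-hard on every class which contains all posets of height at
most three, and it is in `#P` for every class recognised in polynomial time; so it is `#P`-complete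
for the posets of height at most `h`, for every `h ≥ 3`, and for all posets.

The posets of the reduction (a formula in conjunctive normal form gives two posets) have three
levels: a least element, the literals, and above them elements for the variables, the clauses and
the literals.
-/

set_option autoImplicit false

namespace Pool.Agent.Results.MP_593132_lc.BoundedHeight

open Pool.Agent.H596R2 Pool.Agent.NPC Pool.Agent.NPC.Cnt Pool.Agent.Y570.CE

/-- **Main theorem.** (1) COUNT-END is `#P`-complete. (2) Counting order-preserving self-maps is
`#P`-hard on every class of posets which contains all posets of height at most three. (3) It is in `#P`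
on every class of posets recognised in polynomial time. (4) It is `#P`-complete for the posets of
height at most `h`, for every `h ≥ 3`. -/
theorem result :
    (SharpP (strFn countEnd) ∧ SharpPHard (strFn countEnd)) ∧
    (∀ C : List (List Bool) → Prop, (∀ M, IsPoset M → HeightLE 3 M → C M) →
      SharpPHard (strFn (countC C))) ∧
    (∀ C : List (List Bool) → Prop,
      (∃ c : List (List Bool) → Bool, Poly c ∧ ∀ M, IsPoset M → (c M = true ↔ C M)) →
        SharpP (strFn (countC C))) ∧
    ∀ h : ℕ, 3 ≤ h → SharpP (strFn (countC (HeightLE h))) ∧
      SharpPHard (strFn (countC (HeightLE h))) :=
  ⟨Pool.Agent.Results.MP_593132_lc.CountEndComplete.result, hard,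
    fun C ⟨c, hc, hC⟩ => mem C c hc hC,
    fun h hh => ⟨mem _ (htB h) (htB_poly h) fun _ hM => htB_iff h hM,
      hard _ fun _ _ H => H.mono hh⟩⟩

end Pool.Agent.Results.MP_593132_lc.BoundedHeight
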